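import Pool.Agent.W2helper25.KB.Gauss

/-!
# Divergence theorem on the unit ball with a boundary term (inequality)
-/

set_option autoImplicit false

namespace Pool.Agent.W2helper85.KS

open Set Metric MeasureTheory Filter Topology
open scoped ContDiff
open Pool.Agent.Q176.BR Pool.Agent.W2helper25.KB

variable {n : ℕ}

/-- outward fields near the sphere have nonnegative total divergence -/
theorem div_nonneg (Z : Fin n → E n → ℝ) (hZ : ∀ k, ContDiff ℝ 1 (Z k))
    (hb : ∀ x : E n, 1 / 2 ≤ ‖x‖ ^ 2 → ‖x‖ ≤ 1 → 0 ≤ ∑ k, x k * Z k x) :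
    0 ≤ ∫ x in ball (0 : E n) 1, ∑ k, fderiv ℝ (Z k) x (bs k) := by
  have hq : ContDiff ℝ 1 (fun x : E n => ∑ k, x k * Z k x) := by
    refine ContDiff.sum fun k _ => ContDiff.mul ?_ (hZ k)
    fun_prop
  set q : E n → ℝ := fun x => ∑ k, x k * Z k x with hqd
  set D : E n → ℝ := fun x => ∑ k, fderiv ℝ (Z k) x (bs k) with hD
  have hDc : Continuous D := continuous_finsetSum _ fun k _ =>
    ((hZ k).continuous_fderiv (by norm_num)).clm_apply continuous_const
  set s : ℕ → E n → ℝ := fun m x => (m + 1) * (1 - ‖x‖ ^ 2) - 1 with hs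
  have hsc : ∀ m, Continuous (s m) := by
    intro m
    simp only [hs]
    fun_prop
  set F : ℕ → E n → ℝ := fun m x => Real.smoothTransition (s m x) * D x -
    2 * (m + 1) * deriv Real.smoothTransition (s m x) * q x with hF
  have hs1 : ∀ m x, 1 ≤ ‖x‖ → s m x < 0 := by
    intro m x hx
    have h1 : (1 : ℝ) - ‖x‖ ^ 2 ≤ 0 := by nlinarith
    have h2 : ((m : ℝ) + 1) * (1 - ‖x‖ ^ 2) ≤ 0 := mul_nonpos_of_nonneg_of_nonpos (by positivity) h1
    simp only [hs]; linarith
  have hF0 : ∀ m x, 1 ≤ ‖x‖ → F m x = 0 := by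
    intro m x hx
    have h1 := hs1 m x hx
    simp only [hF]
    rw [st_deriv_zero (Or.inl h1), Real.smoothTransition.zero_of_nonpos h1.le]
    ring
  have hcs : ∀ m k, HasCompactSupport (fun x => cut m x * Z k x) := by
    intro m k
    refine HasCompactSupport.intro (isCompact_closedBall (0 : E n) 1) (fun x hx => ?_)
    rw [mem_closedBall_zero_iff, not_le] at hx
    have h1 := hs1 m x hx.le
    simp only [cut]
    rw [Real.smoothTransition.zero_of_nonpos h1.le]; ring
  have hcd : ∀ m k, ContDiff ℝ 1 (fun x => cut m x * Z k x) := fun m k =>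
    ((contDiff_cut m).of_le (by exact_mod_cast le_top)).mul (hZ k)
  have hFeq : ∀ m x, F m x = ∑ k, fderiv ℝ (fun x => cut m x * Z k x) x (bs k) := by
    intro m x
    have h1 : ∀ k, fderiv ℝ (fun x => cut m x * Z k x) x (bs k) =
        Real.smoothTransition (s m x) * fderiv ℝ (Z k) x (bs k) -
          2 * (m + 1) * deriv Real.smoothTransition (s m x) * (x k * Z k x) := by
      intro k
      rw [fderiv_fun_mul ((contDiff_cut m).differentiable (by simp) x)
        ((hZ k).differentiable (by norm_num) x)]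
      simp only [add_apply, smul_apply, smul_eq_mul]
      rw [cut_fderiv, bs_inner]
      simp only [cut, hs]
      ring
    simp only [h1, Finset.sum_sub_distrib, ← Finset.mul_sum, hF, hD, hqd]
  have hint : ∀ m, ∫ x in ball (0 : E n) 1, F m x = 0 := by
    intro m
    rw [setIntegral_eq_integral_of_forall_compl_eq_zero (fun x hx => hF0 m x (by
      rw [mem_ball_zero_iff, not_lt] at hx; exact hx))]
    simp only [hFeq]
    rw [integral_finsetSum]
    · exact Finset.sum_eq_zero fun k _ => int_fderiv_zero (hcd m k) (hcs m k) _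
    · intro k _
      exact (((hcd m k).continuous_fderiv (by norm_num)).clm_apply
        continuous_const).integrable_of_hasCompactSupport
        (((hcs m k).fderiv (𝕜 := ℝ)).comp_left (g := fun L : E n →L[ℝ] ℝ => L (bs k)) (by simp))
  obtain ⟨K, hK⟩ := (isCompact_closedBall (0 : E n) 1).exists_bound_of_continuousOn
    hDc.continuousOn
  have hGc : ∀ m, Continuous (fun x => Real.smoothTransition (s m x) * D x) := fun m =>
    (Real.smoothTransition.continuous.comp (hsc m)).mul hDc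
  have hst : Continuous (deriv Real.smoothTransition) :=
    (Real.smoothTransition.contDiff (n := 1)).continuous_deriv (by norm_num)
  have hHc : ∀ m : ℕ, Continuous (fun x => 2 * ((m : ℝ) + 1) * deriv Real.smoothTransition (s m x) * q x) :=
    fun m => (continuous_const.mul (hst.comp (hsc m))).mul hq.continuous
  have hIo : ∀ f : E n → ℝ, Continuous f → IntegrableOn f (ball (0 : E n) 1) := fun f hf =>
    (hf.continuousOn.integrableOn_compact (isCompact_closedBall (0 : E n) 1)).mono_set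
      ball_subset_closedBall
  have hpos : ∀ m : ℕ, 3 ≤ m → 0 ≤ ∫ x in ball (0 : E n) 1, Real.smoothTransition (s m x) * D x := by
    intro m hm
    have h1 := hint m
    simp only [hF] at h1
    rw [integral_sub (hIo _ (hGc m)) (hIo _ (hHc m)), sub_eq_zero] at h1
    rw [h1]
    refine setIntegral_nonneg measurableSet_ball fun x hx => ?_
    rw [mem_ball_zero_iff] at hx
    have hd : 0 ≤ deriv Real.smoothTransition (s m x) := Real.smoothTransition.monotone.deriv_nonneg
    by_cases h5 : 1 < s m x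
    · rw [st_deriv_zero (Or.inr h5)]
      simp
    · rw [not_lt] at h5
      have hm' : (3 : ℝ) ≤ m := by exact_mod_cast hm
      have h6 : 1 / 2 ≤ ‖x‖ ^ 2 := by
        simp only [hs] at h5
        by_contra h7
        rw [not_le] at h7
        nlinarith
      have h8 := hb x h6 hx.le
      have : 0 ≤ q x := h8
      positivity
  have : IsFiniteMeasure (volume.restrict (ball (0 : E n) 1)) :=
    ⟨by rw [Measure.restrict_apply_univ]; exact measure_ball_lt_top⟩
  have hlim := tendsto_integral_of_dominated_convergence (μ := volume.restrict (ball (0 : E n) 1))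
    (F := fun m x => Real.smoothTransition (s m x) * D x) (f := D) (fun _ => K)
    (fun m => (hGc m).aestronglyMeasurable)
    (integrable_const _)
    (fun m => by
      refine (ae_restrict_iff' measurableSet_ball).2 (Eventually.of_forall fun x hx => ?_)
      rw [mem_ball_zero_iff] at hx
      have h1 := hK x (by rw [mem_closedBall_zero_iff]; exact hx.le)
      rw [norm_mul, Real.norm_eq_abs (Real.smoothTransition _),
        abs_of_nonneg (Real.smoothTransition.nonneg _)]
      calc Real.smoothTransition (s m x) * ‖D x‖ ≤ 1 * ‖D x‖ :=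
            mul_le_mul_of_nonneg_right (Real.smoothTransition.le_one _) (norm_nonneg _)
        _ ≤ K := by rw [one_mul]; exact h1)
    (by
      refine (ae_restrict_iff' measurableSet_ball).2 (Eventually.of_forall fun x hx => ?_)
      rw [mem_ball_zero_iff] at hx
      have h1 : 0 < 1 - ‖x‖ ^ 2 := by nlinarith [norm_nonneg x]
      obtain ⟨N, hN⟩ := exists_nat_gt (2 / (1 - ‖x‖ ^ 2))
      refine tendsto_const_nhds.congr' ?_
      filter_upwards [eventually_ge_atTop N] with m hm
      have h2 : 1 < s m x := by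
        have h3 : 2 / (1 - ‖x‖ ^ 2) < (m : ℝ) + 1 := by
          have : (N : ℝ) ≤ m := by exact_mod_cast hm
          linarith
        rw [div_lt_iff₀ h1] at h3
        simp only [hs]; linarith
      rw [Real.smoothTransition.one_of_one_le h2.le, one_mul])
  refine ge_of_tendsto hlim ?_
  filter_upwards [eventually_ge_atTop 3] with m hm
  exact hpos m hm

/-- Lipschitz bound near the sphere -/
theorem lip_bd2 {q : E n → ℝ} (hq : ContDiff ℝ 1 q) {δ : ℝ} (hb : ∀ x, ‖x‖ = 1 → |q x| ≤ δ) :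
    ∃ C : ℝ, 0 ≤ C ∧ ∀ x : E n, x ≠ 0 → ‖x‖ ≤ 1 → |q x| ≤ δ + C * (1 - ‖x‖) := by
  obtain ⟨C, hC⟩ := (isCompact_closedBall (0 : E n) 1).exists_bound_of_continuousOn
    (hq.continuous_fderiv (by norm_num)).continuousOn
  refine ⟨max C 0, le_max_right _ _, fun x hx0 hx => ?_⟩
  have hn : 0 < ‖x‖ := norm_pos_iff.2 hx0
  have h1 : ‖‖x‖⁻¹ • x‖ = 1 := by
    rw [norm_smul, norm_inv, norm_norm, inv_mul_cancel₀ hn.ne']
  have h2 := (convex_closedBall (0 : E n) 1).norm_image_sub_le_of_norm_fderiv_le (𝕜 := ℝ) (f := q)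
    (C := max C 0) (fun y _ => hq.differentiable (by norm_num) y)
    (fun y hy => (hC y hy).trans (le_max_left _ _))
    (x := ‖x‖⁻¹ • x) (y := x) (by rw [mem_closedBall_zero_iff, h1])
    (by rwa [mem_closedBall_zero_iff])
  rw [Real.norm_eq_abs] at h2
  have h3 : x - ‖x‖⁻¹ • x = (1 - ‖x‖⁻¹) • x := by rw [sub_smul, one_smul]
  have h4 : ‖x - ‖x‖⁻¹ • x‖ = 1 - ‖x‖ := by
    rw [h3, norm_smul, Real.norm_eq_abs, abs_of_nonpos (by
      rw [sub_nonpos]; exact (one_le_inv₀ hn).2 hx)]
    field_simp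
    ring
  rw [h4] at h2
  have h5 := hb _ h1
  have h6 : |q x| ≤ |q (‖x‖⁻¹ • x)| + |q x - q (‖x‖⁻¹ • x)| := by
    have := abs_add_le (q (‖x‖⁻¹ • x)) (q x - q (‖x‖⁻¹ • x))
    rwa [add_sub_cancel] at this
  linarith

/-- the one-sided inequality -/
theorem div_le (hn : 1 ≤ n) (Z : Fin n → E n → ℝ) (δ : ℝ) (hZ : ∀ k, ContDiff ℝ 1 (Z k))
    (hb : ∀ x : E n, ‖x‖ = 1 → |∑ k, x k * Z k x| ≤ δ) :
    ∫ x in ball (0 : E n) 1, ∑ k, fderiv ℝ (Z k) x (bs k) ≤
      (n * (volume (ball (0 : E n) 1)).toReal) * δ := by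
  have hδ : 0 ≤ δ := by
    have h1 : ‖bs (⟨0, hn⟩ : Fin n)‖ = 1 := by
      unfold bs
      simp
    exact (abs_nonneg _).trans (hb _ h1)
  have hq : ContDiff ℝ 1 (fun x : E n => ∑ k, x k * Z k x) := by
    refine ContDiff.sum fun k _ => ContDiff.mul ?_ (hZ k)
    fun_prop
  obtain ⟨C₁, hC₁, hC⟩ := lip_bd2 hq hb
  set C : ℝ := 2 * (C₁ + δ) with hCd
  have hC0 : 0 ≤ C := by positivity
  have hxk : ∀ k : Fin n, ContDiff ℝ 1 (fun x : E n => x k) := fun k => by fun_prop
  have hns : ContDiff ℝ 1 (fun x : E n => ‖x‖ ^ 2) := contDiff_norm_sq ℝ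
  -- the three fields
  set Y : Fin n → E n → ℝ := fun k x => (1 - ‖x‖ ^ 2) * x k with hY
  have hYc : ∀ k, ContDiff ℝ 1 (Y k) := fun k => (contDiff_const.sub hns).mul (hxk k)
  have hsq : ∀ x : E n, ∑ k, x k * x k = ‖x‖ ^ 2 := by
    intro x
    rw [EuclideanSpace.norm_sq_eq]
    refine Finset.sum_congr rfl fun k _ => ?_
    rw [Real.norm_eq_abs, sq_abs, sq]
  have hY0 : ∫ x in ball (0 : E n) 1, ∑ k, fderiv ℝ (Y k) x (bs k) = 0 := by
    refine ball_div Y hYc fun x hx => ?_
    refine Finset.sum_eq_zero fun k _ => ?_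
    simp only [hY]
    rw [hx]
    ring
  set W : Fin n → E n → ℝ := fun k x => δ * x k + C * Y k x - Z k x with hW
  have hWc : ∀ k, ContDiff ℝ 1 (W k) := fun k =>
    ((contDiff_const.mul (hxk k)).add (contDiff_const.mul (hYc k))).sub (hZ k)
  have hWn := div_nonneg W hWc (by
    intro x h1 h2
    have hx0 : x ≠ 0 := by
      rintro rfl
      rw [norm_zero] at h1
      norm_num at h1
    have h3 := (abs_le.1 (hC x hx0 h2)).2
    have h4 : ∑ k, x k * W k x = δ * ‖x‖ ^ 2 + C * ((1 - ‖x‖ ^ 2) * ‖x‖ ^ 2) - ∑ k, x k * Z k x := by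
      rw [← hsq x]
      simp only [hW, hY, mul_sub, mul_add, Finset.sum_sub_distrib, Finset.sum_add_distrib,
        Finset.mul_sum]
      congr 1
      congr 1
      · exact Finset.sum_congr rfl fun k _ => by ring
      · rw [hsq x]
        exact Finset.sum_congr rfl fun k _ => by ring
    rw [h4]
    have h5 : 0 ≤ 1 - ‖x‖ := by linarith
    have h6 : 0 ≤ ‖x‖ := norm_nonneg x
    have h7 : 1 - ‖x‖ ≤ 1 - ‖x‖ ^ 2 := by nlinarith
    have h8 : 0 ≤ 1 - ‖x‖ ^ 2 := h5.trans h7
    have h9 : C * ((1 - ‖x‖ ^ 2) * (1 / 2)) ≤ C * ((1 - ‖x‖ ^ 2) * ‖x‖ ^ 2) :=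
      mul_le_mul_of_nonneg_left (mul_le_mul_of_nonneg_left h1 h8) hC0
    have h10 : C₁ * (1 - ‖x‖) ≤ C₁ * (1 - ‖x‖ ^ 2) := mul_le_mul_of_nonneg_left h7 hC₁
    have h11 : C * ((1 - ‖x‖ ^ 2) * (1 / 2)) = C₁ * (1 - ‖x‖ ^ 2) + δ * (1 - ‖x‖ ^ 2) := by
      rw [hCd]; ring
    have h12 : (∑ k, x k * Z k x) ≤ δ + C₁ * (1 - ‖x‖) := h3
    linarith)
  have hdW : ∀ x : E n, ∑ k, fderiv ℝ (W k) x (bs k) =
      δ * n + C * ∑ k, fderiv ℝ (Y k) x (bs k) - ∑ k, fderiv ℝ (Z k) x (bs k) := by
    intro x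
    have h1 : ∀ k, fderiv ℝ (W k) x (bs k) = δ * 1 + C * fderiv ℝ (Y k) x (bs k) -
        fderiv ℝ (Z k) x (bs k) := by
      intro k
      have e1 : HasFDerivAt (fun y : E n => y k) (EuclideanSpace.proj k : E n →L[ℝ] ℝ) x :=
        (EuclideanSpace.proj k : E n →L[ℝ] ℝ).hasFDerivAt
      have e2 := ((hYc k).differentiable (by norm_num) x).hasFDerivAt
      have e3 := ((hZ k).differentiable (by norm_num) x).hasFDerivAt
      have e4 := ((e1.const_mul δ).add (e2.const_mul C)).sub e3
      have e5 : fderiv ℝ (W k) x = δ • (EuclideanSpace.proj k : E n →L[ℝ] ℝ) +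
          C • fderiv ℝ (Y k) x - fderiv ℝ (Z k) x := HasFDerivAt.fderiv e4
      rw [e5]
      simp [bs]
    simp only [h1, Finset.sum_sub_distrib, Finset.sum_add_distrib, ← Finset.mul_sum]
    simp
  have hIo : ∀ f : E n → ℝ, Continuous f → IntegrableOn f (ball (0 : E n) 1) := fun f hf =>
    (hf.continuousOn.integrableOn_compact (isCompact_closedBall (0 : E n) 1)).mono_set
      ball_subset_closedBall
  have hcont : ∀ V : Fin n → E n → ℝ, (∀ k, ContDiff ℝ 1 (V k)) →
      Continuous fun x => ∑ k, fderiv ℝ (V k) x (bs k) := fun V hV =>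
    continuous_finsetSum _ fun k _ =>
      ((hV k).continuous_fderiv (by norm_num)).clm_apply continuous_const
  simp only [hdW] at hWn
  have i1 : IntegrableOn (fun x : E n => C * ∑ k, fderiv ℝ (Y k) x (bs k)) (ball (0 : E n) 1) :=
    hIo _ (continuous_const.mul (hcont Y hYc))
  have i2 : IntegrableOn (fun x : E n => δ * (n : ℝ) + C * ∑ k, fderiv ℝ (Y k) x (bs k))
      (ball (0 : E n) 1) :=
    hIo _ (continuous_const.add (continuous_const.mul (hcont Y hYc)))
  have i3 : IntegrableOn (fun _ : E n => δ * (n : ℝ)) (ball (0 : E n) 1) :=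
    hIo _ continuous_const
  have i4 : ∫ x in ball (0 : E n) 1, C * ∑ k, fderiv ℝ (Y k) x (bs k) = 0 := by
    rw [integral_const_mul, hY0, mul_zero]
  rw [integral_sub i2 (hIo _ (hcont Z hZ)), integral_add i3 i1, i4, add_zero,
    setIntegral_const, smul_eq_mul] at hWn
  have : volume.real (ball (0 : E n) 1) = (volume (ball (0 : E n) 1)).toReal := rfl
  rw [this] at hWn
  linarith

end Pool.Agent.W2helper85.KS
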