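import Pool.Agent.W2helper20.KS.Stm
import Pool.Agent.W2helper85.KS.DivAux

/-!
# PIECE DIV of project KS
-/

set_option autoImplicit false

namespace Pool.Agent.W2helper85.KS

open Set Metric MeasureTheory Filter Topology
open scoped ContDiff
open Pool.Agent.Q176.BR Pool.Agent.W2helper25.KB Pool.Agent.W2helper20.KS

/-- DIV -/
theorem p_DIV : P_DIV := by
  intro n hn
  refine ⟨n * (volume (ball (0 : E n) 1)).toReal, by positivity, fun Z δ hZ hb => ?_⟩
  rw [abs_le]
  constructor
  · have h1 := div_le hn (fun k x => -Z k x) δ (fun k => (hZ k).neg) (fun x hx => by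
      have h2 := hb x hx
      simp only [mul_neg, Finset.sum_neg_distrib, abs_neg]
      exact h2)
    have h3 : ∀ x : E n, ∑ k, fderiv ℝ (fun x => -Z k x) x (bs k) =
        -∑ k, fderiv ℝ (Z k) x (bs k) := by
      intro x
      rw [← Finset.sum_neg_distrib]
      refine Finset.sum_congr rfl fun k _ => ?_
      rw [fderiv_fun_neg]
      rfl
    simp only [h3] at h1
    rw [integral_neg] at h1
    linarith
  · exact div_le hn Z δ hZ hb

end Pool.Agent.W2helper85.KS
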